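import Pool.Agent.Run7.h275.RB18

/-!
# One blowing-up which log uniformizes all valuations of bounded contact order

Let `O` be a regular domain such that every domain of finite type over `O` is regular on a nonempty open set (for example
a field of characteristic zero, a perfect field, the integers, or any regular quasi-excellent domain), let `X` be an integral
projective scheme over `O`, of any dimension and with arbitrary singularities, and let `D` be a closed subscheme of `X`.
We construct one tower of blowings-up `X = X_0 ← X_1 ← X_2 ← …` such that `X_e` is regular and the inverse image of `D` is a divisor with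
normal crossings at the centre of every valuation `V` for which the product of the Jacobian ideal of `X` and of the ideal of
`D` is not contained in `𝔪_V ^ (e + 1)`, and such that the centre of the blowing-up `X_(e+1) → X_e` does not contain any point at which
`X_e` is regular and the inverse image of `D` is a divisor with normal crossings (or empty).

The schemes are described in the function field: an integral projective scheme is `Proj O[M]` for a finitely generated submodule
`M ⊆ F` (the homogeneous coordinates), with the charts `Spec O[m / w : m ∈ M]`, `w ∈ M`, `w ≠ 0`, and its points correspond to their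
local rings in `F`, which are the local rings at the centres of the valuation rings of `F` containing `O`.  A closed subscheme
is given by a module of homogeneous elements of some degree `c`, contained in `M ^ c`.  If `C ⊆ M ^ k` is finitely generated and
`C ≠ 0`, then `Proj O[M C]` is the blowing-up of `Proj O[M]` in the closed subscheme with the equations `C`.
-/

set_option autoImplicit false

namespace Pool.Agent.Results.MP_5b7a2c_ag.SimultaneousLogUniformization

open IsLocalRing

/-- Every domain of finite type over `O` is regular on a nonempty open set. -/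
def GenericallyRegular (O : Type) [CommRing O] : Prop :=
  ∀ (B : Type) [CommRing B] [IsDomain B] [Algebra O B], Algebra.FiniteType O B →
    ∃ t : B, t ≠ 0 ∧ ∀ (q : Ideal B) [q.IsPrime], t ∉ q → IsRegularLocalRing (Localization.AtPrime q)

section definitions

variable (O : Type) {F : Type} [CommRing O] [Field F] [Algebra O F]

/-- The coordinate ring `O[m / w : m ∈ M]` of the chart `w ≠ 0` of the projective scheme `Proj O[M]` with the
homogeneous coordinates `M ⊆ F`. -/
def chart (M : Submodule O F) (w : F) : Subring F :=
  (Algebra.adjoin O {z | ∃ m ∈ M, z = m / w}).toSubring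

/-- The local ring of `Spec B` at the centre of the valuation ring `V`: the fractions of elements of `B` whose
denominators are units of `V`. -/
def centreRing (V : ValuationSubring F) (B : Subring F) : Subring F where
  carrier := {x | ∃ a ∈ B, ∃ b ∈ B, b ≠ 0 ∧ b⁻¹ ∈ V ∧ x = a * b⁻¹}
  mul_mem' := (Pool.Agent.W418.LU2.lo V.toSubring B).mul_mem'
  one_mem' := (Pool.Agent.W418.LU2.lo V.toSubring B).one_mem'
  add_mem' := (Pool.Agent.W418.LU2.lo V.toSubring B).add_mem'
  zero_mem' := (Pool.Agent.W418.LU2.lo V.toSubring B).zero_mem'
  neg_mem' := (Pool.Agent.W418.LU2.lo V.toSubring B).neg_mem'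

/-- The valuation ring `V` of the function field contains the base ring. -/
def Contains (V : ValuationSubring F) : Prop := ∀ o : O, algebraMap O F o ∈ V

variable {O} in
/-- `Q` is the local ring of `Proj O[M]` at the centre of the valuation ring `V`, which lies in the chart `w ≠ 0`. -/
def IsLocalRingAt (V : ValuationSubring F) (M : Submodule O F) (Q : Subring F) : Prop :=
  ∃ w ∈ M, w ≠ 0 ∧ (∀ m ∈ M, m / w ∈ V) ∧ centreRing V (chart O M w) = Q

variable {O} in
/-- The ideal of the inverse image of `D` in the local ring `Q` of a scheme over `Proj O[M₀]`, where `D` is defined by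
the homogeneous elements `N` of degree `c`: it is generated by the elements `g / w ^ c`, where `g ∈ N` and `w` is a
homogeneous coordinate which does not vanish at the point. -/
def idealOf (M₀ N : Submodule O F) (c : ℕ) (Q : Subring F) : Ideal Q :=
  Ideal.span {b : Q | ∃ w ∈ M₀, w ≠ 0 ∧ (∀ m ∈ M₀, m / w ∈ Q) ∧ ∃ g ∈ N, (b : F) = g / w ^ c}

variable {O} in
/-- The local ring `Q` is regular and the inverse image of `D` is a divisor with normal crossings, or empty: its ideal is
generated by a monomial in a regular system of parameters. -/
def HasNormalCrossings (M₀ N : Submodule O F) (c : ℕ) (Q : Subring F) : Prop :=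
  ∃ (_ : IsRegularLocalRing Q) (r : ℕ) (x : Fin r → Q) (α : Fin r → ℕ),
    Ideal.span (Set.range x) = maximalIdeal Q ∧ ringKrullDim Q = r ∧
      idealOf M₀ N c Q = Ideal.span {∏ i, x i ^ α i}

/-- `δ` is an element of the Jacobian ideal of the chart `i`: for some polynomials `f l` over `O` which vanish at the
point `x = (y j / y i)_j` and generate the ideal of `x` up to a factor which does not vanish at `x`, and some
derivations `D l` of the polynomial ring (for example partial derivatives), `δ` is the determinant of the matrix
`(D l (f k)) (x)`. -/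
def IsJacobianMinor {n : ℕ} (y : Fin n → F) (i : Fin n) (δ : F) : Prop :=
  ∃ (r : ℕ) (f : Fin r → MvPolynomial (Fin n) O)
    (D : Fin r → Derivation ℤ (MvPolynomial (Fin n) O) (MvPolynomial (Fin n) O)),
    (∀ k, MvPolynomial.aeval (fun j => y j / y i) (f k) = 0) ∧
    (∀ s : MvPolynomial (Fin n) O, MvPolynomial.aeval (fun j => y j / y i) s = 0 →
      ∃ t, MvPolynomial.aeval (fun j => y j / y i) t ≠ 0 ∧ t * s ∈ Ideal.span (Set.range f)) ∧
    δ = (Matrix.of fun k l => MvPolynomial.aeval (fun j => y j / y i) (D l (f k))).det

end definitions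

open Pool.Agent.W418.LU2 Pool.Agent.Run7.h275.RB Pool.Agent.Run7.h275.RL

/-- Orders with respect to powers of the maximal ideal. -/
lemma ordLe_of_pow {F : Type} [Field F] {V : ValuationSubring F} {x : V} {e : ℕ}
    (h : x ∉ maximalIdeal V ^ (e + 1)) : OrdLe V (x : F) e := by
  classical
  intro z hz
  by_contra hcon
  rw [not_lt] at hcon
  apply h
  have hzV : ∀ i, i < e + 1 → z i ∈ V := fun i hi => (V.valuation_le_one_iff _).1 (hz i hi).le
  let m : ℕ → V := fun i => if hi : i < e + 1 then ⟨z i, hzV i hi⟩ else 1
  have hm : ∀ i, i < e + 1 → (m i : F) = z i := fun i hi => by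
    simp only [m, dif_pos hi]
  have hmm : ∀ i ∈ Finset.range (e + 1), m i ∈ maximalIdeal V := by
    intro i hi
    have hi' := Finset.mem_range.1 hi
    refine (V.valuation_lt_one_iff (m i)).2 ?_
    rw [hm i hi']
    exact hz i hi'
  have hprod : ∏ i ∈ Finset.range (e + 1), m i ∈ maximalIdeal V ^ (e + 1) := by
    have := Ideal.prod_mem_prod (s := Finset.range (e + 1)) (I := fun _ => maximalIdeal V) (x := m) hmm
    simpa using this
  have hcoe : ((∏ i ∈ Finset.range (e + 1), m i : V) : F) = ∏ i ∈ Finset.range (e + 1), z i := by
    have h1 : ((∏ i ∈ Finset.range (e + 1), m i : V) : F) = ∏ i ∈ Finset.range (e + 1), (m i : F) :=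
      map_prod V.subtype _ _
    rw [h1]
    exact Finset.prod_congr rfl fun i hi => hm i (Finset.mem_range.1 hi)
  rw [V.valuation_le_iff] at hcon
  obtain ⟨s, hs⟩ := hcon
  have h2 : s * ∏ i ∈ Finset.range (e + 1), m i = x := by
    apply Subtype.ext
    change (s : F) * ((∏ i ∈ Finset.range (e + 1), m i : V) : F) = (x : F)
    rw [hcoe]
    exact hs
  rw [← h2]
  exact Ideal.mul_mem_left _ _ hprod

/-- **Simultaneous log uniformization.**  Let `O` be a regular domain such that all domains of finite type over `O` are
generically regular, let `F` be a field over `O`, let `X = Proj O[y_1, …, y_n]` be the projective scheme with the homogeneous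
coordinates `y_i ∈ F^*`, and let `D` be the closed subscheme of `X` with the equations `N` of degree `c`.  There are finitely
generated modules `M e`, `C e` with the following properties, where `X_e = Proj O[M e]`.

* `X_0 = X`, and `X_(e+1)` is the blowing-up of `X_e` in the subscheme with the equations `C e` of degree `κ e`; the centre of this
blowing-up does not contain the points at which `X_e` is regular and the inverse image of `D` is a divisor with normal
crossings (there some element of `C e` is a unit), and so the local rings of these points are not changed.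
* Let `V` be a valuation ring of `F` containing `O`, whose centre on `X` lies in the chart `i`.  If for some element `δ` of the
Jacobian ideal and some local equation `g / y_i ^ c` of `D` the product is not in `𝔪_V ^ (e + 1)`, then at the centre of `V` the scheme
`X_e` is regular and the inverse image of `D` is a divisor with normal crossings. -/
theorem result (O F : Type) [CommRing O] [IsDomain O] [IsRegularRing O] [Field F] [Algebra O F]
    (hO : GenericallyRegular O) (n : ℕ) (hn : 0 < n) (y : Fin n → F) (hy : ∀ i, y i ≠ 0) (c : ℕ)
    (N : Submodule O F) (hN : N ≤ Submodule.span O (Set.range y) ^ c) :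
    ∃ (M C : ℕ → Submodule O F) (κ : ℕ → ℕ), M 0 = Submodule.span O (Set.range y) ∧
      (∀ e, (C e).FG ∧ C e ≠ ⊥ ∧ C e ≤ M e ^ κ e ∧ M (e + 1) = M e * C e) ∧
      (∀ (e : ℕ) (V : ValuationSubring F), Contains O V → ∀ Q, IsLocalRingAt V (M e) Q →
        HasNormalCrossings (Submodule.span O (Set.range y)) N c Q →
        (∃ g ∈ C e, ∀ m ∈ M e, V.valuation (m ^ κ e) ≤ V.valuation g) ∧ IsLocalRingAt V (M (e + 1)) Q) ∧
      ∀ (e : ℕ) (V : ValuationSubring F), Contains O V → ∀ i : Fin n, (∀ j, y j / y i ∈ V) →
        ∀ δ, IsJacobianMinor O y i δ → ∀ g ∈ N, ∀ x : V, (x : F) = δ * (g / y i ^ c) →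
          x ∉ maximalIdeal V ^ (e + 1) →
          ∃ Q, IsLocalRingAt V (M e) Q ∧ HasNormalCrossings (Submodule.span O (Set.range y)) N c Q := by
  obtain ⟨M, C, κ, h0, h1, h2, h3, h4⟩ := t_TOWER (O := O) (F := F) hO hy hn hN
  have hyM : ∀ i, y i ∈ Submodule.span O (Set.range y) := fun i => Submodule.subset_span ⟨i, rfl⟩
  have hMM : Md (Submodule.span O (Set.range y)) := ⟨Submodule.fg_span (Set.finite_range y), y ⟨0, hn⟩, hyM _, hy _⟩
  have hmd : ∀ e, Md (M e) := by
    intro e
    obtain ⟨D, hD, hMD⟩ := h2 e
    rw [hMD]
    exact (Pool.Agent.Run7.h915.RB.t_PER O F _ D hMM hD).1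
  refine ⟨M, C, κ, h0, ?_, ?_, ?_⟩
  · intro e
    obtain ⟨h5, h6, h7⟩ := h1 e
    refine ⟨h5.1, ?_, h6, h7⟩
    intro hbot
    obtain ⟨g, hg, hg0⟩ := h5.2
    rw [hbot] at hg
    exact hg0 ((Submodule.mem_bot O).1 hg)
  · intro e V hV Q hQ hnc
    have hQ' : LR V (M e) Q := hQ
    obtain ⟨g, hg, hgV⟩ := h3 e V hV ⟨Q, hQ', hnc⟩
    refine ⟨⟨g, hg, fun m hm => ?_⟩, ?_⟩
    · by_contra hcon
      rw [not_le, map_pow] at hcon
      exact hgV ⟨m, hm, hcon⟩
    · have h5 : LR V (M (e + 1)) Q := by
        rw [(h1 e).2.2]
        exact t_ISO O F (M e) (C e) (κ e) (hmd e) (h1 e).1 (h1 e).2.1 V hV ⟨g, hg, hgV⟩ Q hQ'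
      exact h5
  · intro e V hV i hi δ hδ g hg x hx hxe
    obtain ⟨Q, hQ, hnc⟩ := h4 e V hV i (δ * (g / y i ^ c)) ⟨hi, δ, hδ, g, hg, rfl⟩ (by
      rw [← hx]
      exact ordLe_of_pow hxe)
    exact ⟨Q, hQ, hnc⟩

end Pool.Agent.Results.MP_5b7a2c_ag.SimultaneousLogUniformization
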