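import Pool.Agent.Results.MP_5b7a2c_ag.BoundedDegreeLogUniformization
import Pool.Agent.Run7.h360.TA.Aff
import Pool.Agent.Run7.h360.TA.Adic2

/-!
MP_5b7a2c_ag: log uniformization, along all valuations and in every characteristic, of the affine schemes with
a torus action of any rank over a base on which the valuation is log uniformizable.

Let `R` be a noetherian domain with infinite fraction field `E`, and let `X = Spec A` be an integral
affine scheme over `Spec R` with the function field `K`, which is integral over `Spec R[z 1, ..., z m]` (for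
example, of finite type over `R`; `A` may also be, for example, the normalization), where the `z i` are
semi-invariant: the torus `𝔾_m ^ s` acts on `Spec R[z 1, ..., z m]` over `Spec R`, and `z i` is multiplied by
the character `w i` (`IsTorusAction`). Suppose that the invariant rational functions are those of `Spec R`
(`IsInvariant`): so `Spec R` is a birational model of the quotient. There is no condition on `s`, on
the dimension of `X` and on the weights. Let `V` be a valuation ring of `K`, of any rank and residue
characteristic, with a centre on `X`, such that `V ∩ E` is log uniformizable on `Spec R` (known for quasi-excellent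
`R` of dimension at most `3`, by Cossart and Piltant), or the local ring of `R` at the centre of `V` is
regular of dimension at most `2` (with finite normalizations; for this case nothing is assumed about `V`).

Then for all closed sets `V(D)` and all blowings-up `X₀` of `X` in centres `V(I₀)`, where `D` and `I₀` are
nonzero ideals generated by finitely many semi-invariant elements of `A` (`IsSemiInvariant`; for `A = R[z]`
these are all invariant ideals of finite type), there is a blowing-up of `X` which factors through `X₀` and is a
log desingularization of `(X, V(D))` along `V`.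

The starting file `BoundedDegreeLogUniformization` treats varieties of degree `δ` over `E`, and ideals
generated by products of polynomials of degree at most `e`, if the residue characteristic of `V` is `0` or
greater than `(δ * e ^ r) ^ 2 ^ r`. Here there is no condition on the characteristic; the degree of `X`
over `E` in its embedding is arbitrary, but the torus action gives coordinates in which `K` has degree one over
`E`, and in which all semi-invariant functions are monomials.

The proof. The weights of the `z i` generate a free group, and a basis of this group is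
given by Laurent monomials `x j` in the `z i`, which are algebraically independent over `E`, as they have
independent weights; each semi-invariant rational function is the product of a Laurent monomial in the
`x j` and of an element of `E` (`Run7.h360.TA.Aff.structure_thm`). Now the starting theorem can be applied with `δ = e = 1`,
its condition on the primes being empty.

helper360; built on the library of the starting files (helper98, helper418 and their teams). For semistable
uniformization over discretely valued fields see `MP_1a953e_ag.TorusActionsAdicPoints`.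
-/

set_option autoImplicit false

universe u

namespace Pool.Agent.Results.MP_5b7a2c_ag.TorusActionsLog

open MvPolynomial Pool.Agent.Results.MP_5b7a2c_ag.BoundedDegreeLogUniformization

/-- The torus `𝔾_m ^ s` acts on `Spec R[z 1, ..., z m]` over `Spec R` such that `z i` is multiplied by the
character `w i`: if a polynomial over `R` vanishes at `z`, then all its components for the weights `w`
vanish at `z`. -/
def IsTorusAction {K : Type u} [Field K] (R : Subring K) {m s : ℕ} (z : Fin m → K)
    (w : Fin m → (Fin s → ℤ)) : Prop :=
  ∀ F : MvPolynomial (Fin m) R, aeval z F = 0 → ∀ d, aeval z (weightedHomogeneousComponent w d F) = 0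

/-- `x` is a semi-invariant rational function of weight `d`: the quotient of two polynomials in the `z i`
which are homogeneous for the weights `w`, of the weights `d + e` and `e`. -/
def IsSemiInvariant {K : Type u} [Field K] (R : Subring K) {m s : ℕ} (z : Fin m → K)
    (w : Fin m → (Fin s → ℤ)) (d : Fin s → ℤ) (x : K) : Prop :=
  ∃ (e : Fin s → ℤ) (F G : MvPolynomial (Fin m) R), IsWeightedHomogeneous w F (d + e) ∧
    IsWeightedHomogeneous w G e ∧ aeval z G ≠ 0 ∧ x = aeval z F / aeval z G

/-- The ideal `I` is nonzero, and generated by finitely many semi-invariant elements. -/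
def IsInvariantIdeal {K : Type u} [Field K] (R : Subring K) {m s : ℕ} (z : Fin m → K)
    (w : Fin m → (Fin s → ℤ)) {A : Subring K} (I : Ideal A) : Prop :=
  I ≠ ⊥ ∧ ∃ S : Set A, S.Finite ∧ (∀ a ∈ S, ∃ d, IsSemiInvariant R z w d (a : K)) ∧ I = Ideal.span S

lemma pprod_pow {E K : Type u} [Field E] [Field K] [Algebra E K] {n : ℕ} (x : Fin n → K) {y : K}
    (hy : IsProduct E x 1 y) (k : ℕ) : IsProduct E x 1 (y ^ k) := by
  obtain ⟨q, P, e, hP, rfl⟩ := hy
  refine ⟨q, P, fun i => e i * k, hP, ?_⟩
  rw [← Finset.prod_pow]
  exact Finset.prod_congr rfl fun i _ => by rw [zpow_mul, zpow_natCast]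

lemma pprod_mul {E K : Type u} [Field E] [Field K] [Algebra E K] {n : ℕ} (x : Fin n → K) {y y' : K}
    (hy : IsProduct E x 1 y) (hy' : IsProduct E x 1 y') : IsProduct E x 1 (y * y') := by
  obtain ⟨q, P, e, hP, rfl⟩ := hy
  obtain ⟨q', P', e', hP', rfl⟩ := hy'
  refine ⟨q + q', Fin.append P P', Fin.append e e', fun i => ?_, ?_⟩
  · refine Fin.addCases (fun i => ?_) (fun i => ?_) i
    · rw [Fin.append_left]; exact hP i
    · rw [Fin.append_right]; exact hP' i
  · rw [Fin.prod_univ_add]
    simp only [Fin.append_left, Fin.append_right]

lemma pprod_one {E K : Type u} [Field E] [Field K] [Algebra E K] {n : ℕ} (x : Fin n → K) :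
    IsProduct E x 1 (1 : K) := ⟨0, fun i => i.elim0, fun i => i.elim0, fun i => i.elim0, by simp⟩

lemma pprod_prod {E K : Type u} [Field E] [Field K] [Algebra E K] {n : ℕ} (x : Fin n → K) {σ : Type}
    (s : Finset σ) (y : σ → K) (hy : ∀ i ∈ s, IsProduct E x 1 (y i)) : IsProduct E x 1 (∏ i ∈ s, y i) := by
  classical
  induction s using Finset.induction_on with
  | empty => rw [Finset.prod_empty]; exact pprod_one x
  | insert i s hi ih =>
    rw [Finset.prod_insert hi]
    exact pprod_mul x (hy i (Finset.mem_insert_self _ _)) (ih fun j hj => hy j (Finset.mem_insert_of_mem hj))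

lemma pprod_mono {E K : Type u} [Field E] [Field K] [Algebra E K] {n : ℕ} (x : Fin n → K) (b : E)
    (γ : Fin n → ℤ) : IsProduct E x 1 (algebraMap E K b * ∏ j, x j ^ γ j) := by
  refine ⟨n + 1, Fin.cons (C b) (fun j => X j), Fin.cons 1 γ, ?_, ?_⟩
  · intro j
    refine Fin.cases ?_ (fun j => ?_) j
    · rw [Fin.cons_zero, totalDegree_C]
      exact Nat.zero_le _
    · rw [Fin.cons_succ]
      exact (totalDegree_X j).le
  · rw [Fin.prod_univ_succ]
    simp only [Fin.cons_zero, Fin.cons_succ, zpow_one, aeval_X, aeval_C]

/-- Let `V` be a valuation ring of a field `K`, let `E` be an infinite subfield of `K`, and `R` a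
noetherian subring of `E ∩ V` with fraction field `E`. Suppose that `V ∩ E` is log uniformizable on
`Spec R`, or that the local ring of `Spec R` at the centre of `V` is regular of dimension at most
two (with finite normalizations). Let `z 1, ..., z m` be nonzero elements of a subring `A ⊆ V` of `K`
which contains `R` and is integral over `R[z 1, ..., z m]`, such that `K` is the field of fractions of
`R[z 1, ..., z m]`. Let the torus `𝔾_m ^ s` act on `Spec R[z 1, ..., z m]` over `Spec R` such that `z i` is
multiplied by the character `w i`, and suppose that the invariant rational functions are the elements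
of `E`. Then for each closed set `V(D)` and each blowing-up `X₀` of `X = Spec A` in a centre `V(I₀)`,
where `D` and `I₀` are nonzero ideals generated by finitely many semi-invariant elements, there is an ideal
`I₁ ≠ 0` of `A` such that the blowing-up of `X` in `I₀ * I₁`, which
factors through `X₀`, is a log desingularization of `(X, V(D))` along `V`. -/
theorem result {K : Type u} [Field K] (V : ValuationSubring K) (E : Subfield K) [Infinite E]
    (R : Subring K) [IsNoetherianRing R] (hfr : ∀ y : K, y ∈ E ↔ ∃ a ∈ R, ∃ b ∈ R, b ≠ 0 ∧ y = a * b⁻¹)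
    (hR : IsLogUniformizable (V.comap E.subtype) (R.comap E.subtype) ∨
      IsSurface (centreRing (V.comap E.subtype) (R.comap E.subtype)))
    (m s : ℕ) (z : Fin m → K) (hz0 : ∀ i, z i ≠ 0) (w : Fin m → (Fin s → ℤ))
    (hK : ∀ y : K, ∃ F G : MvPolynomial (Fin m) R, aeval z G ≠ 0 ∧ y = aeval z F / aeval z G)
    (hact : IsTorusAction R z w) (hE : ∀ y : K, IsSemiInvariant R z w 0 y → y ∈ E)
    (A : Subring K) (hAV : A ≤ V.toSubring) (hRA : R ≤ A) (hzA : ∀ i, z i ∈ A)
    (hA : ∀ y ∈ A, IsIntegral (Subring.closure ((R : Set K) ∪ Set.range z)) y)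
    (D I₀ : Ideal A) (hD : IsInvariantIdeal R z w D) (hI : IsInvariantIdeal R z w I₀) :
    ∃ I₁ : Ideal A, I₁ ≠ ⊥ ∧ IsLogDesingularization V A D (I₀ * I₁) := by
  classical
  have hRE : ∀ a ∈ R, a ∈ E := fun a ha => (hfr a).2 ⟨a, ha, 1, R.one_mem, one_ne_zero, by simp⟩
  obtain ⟨n, x, a, c, ez, hx, ha, hx0, ha0, hza, haz, hind, hcl, htop, hsemi⟩ :=
    Pool.Agent.Run7.h360.TA.Aff.structure_thm (O := R) (z := z) (w := w) hact hz0 hK
  have hEeq : Pool.Agent.Run7.h360.TA.Aff.invField R z w = E := by
    refine le_antisymm (fun y hy => hE y hy) fun y hy => ?_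
    obtain ⟨a, ha, b, hb, -, rfl⟩ := (hfr y).1 hy
    exact mul_mem (Pool.Agent.Run7.h360.TA.Aff.SI.const (O := R) (z := z) (w := w) ⟨a, ha⟩)
      (inv_mem (Pool.Agent.Run7.h360.TA.Aff.SI.const (O := R) (z := z) (w := w) ⟨b, hb⟩))
  subst hEeq
  obtain ⟨htr, C, hC⟩ := Pool.Agent.Run7.h360.TA.Adic.degree_one x hind htop
  set E : Subfield K := Pool.Agent.Run7.h360.TA.Aff.invField R z w with hEdef
  have hzp : ∀ i, IsProduct E x 1 (z i) := by
    intro i
    rw [hza i]
    exact pprod_mono x (⟨a i, ha i⟩ : E) (c i)
  have hsp : ∀ y : K, y ≠ 0 → (∃ d, IsSemiInvariant R z w d y) → IsProduct E x 1 y := by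
    rintro y hy0 ⟨d, hd⟩
    obtain ⟨b, γ, hb, rfl⟩ := hsemi d y hd hy0
    exact pprod_mono x (⟨b, hb⟩ : E) γ
  have hgen : ∀ I : Ideal A, IsInvariantIdeal R z w I → IsGenerated (E := E) x 1 I := by
    rintro I ⟨hI0, S, hS, hSs, rfl⟩
    refine ⟨hI0, S \ {0}, hS.subset Set.sdiff_subset, ?_, ?_⟩
    · rintro y ⟨hy, hy0⟩
      refine hsp _ (fun h => hy0 ?_) (hSs y hy)
      exact Subtype.ext h
    · exact (Ideal.span_sdiff_singleton_zero).symm
  have hRmap : ((R.comap E.subtype).map (algebraMap E K) : Set K) = (R : Set K) := by
    ext y
    constructor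
    · rintro ⟨y, hy, rfl⟩
      exact hy
    · intro hy
      exact ⟨⟨y, hRE y hy⟩, hy, rfl⟩
  have hN : IsNoetherianRing (R.comap E.subtype) := by
    refine isNoetherianRing_of_surjective R _ (f := ?_) ?_
    · exact { toFun := fun y => ⟨⟨y, hRE y y.2⟩, y.2⟩
              map_one' := rfl
              map_mul' := fun _ _ => rfl
              map_zero' := rfl
              map_add' := fun _ _ => rfl }
    · rintro ⟨y, hy⟩
      exact ⟨⟨y, hy⟩, rfl⟩
  refine BoundedDegreeLogUniformization.result (E := E) V (R.comap E.subtype) ?_ ?_ hR n n 1 1 le_rfl x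
    ⟨htop, htr, C, hC⟩ ?_ A hAV ⟨⟨Set.range z, Set.finite_range z, ?_, ?_, ?_⟩, ?_⟩ D I₀ (hgen D hD) (hgen I₀ hI)
  · intro y
    obtain ⟨a, ha, b, hb, hb0, hy⟩ := (hfr y).1 y.2
    exact ⟨⟨a, hRE a ha⟩, ha, ⟨b, hRE b hb⟩, hb, fun h => hb0 (congrArg Subtype.val h), Subtype.ext hy⟩
  · intro a ha
    exact hAV (hRA ha)
  · intro p hp h
    exfalso
    have h1 := hp.two_le
    simp only [one_pow, one_mul] at h
    omega
  · rintro _ ⟨i, rfl⟩
    exact hzp i
  · rw [hRmap, Subring.closure_le]
    rintro y (hy | ⟨i, rfl⟩)
    · exact hRA hy
    · exact hzA i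
  · rw [hRmap]
    exact hA
  · intro j
    refine ⟨∏ i, z i ^ (-ez j i).toNat, prod_mem fun i _ => pow_mem (hzA i) _,
      Finset.prod_ne_zero_iff.2 fun i _ => pow_ne_zero _ (hz0 i),
      pprod_prod x _ _ fun i _ => pprod_pow x (hzp i) _, ?_⟩
    rw [hx j, ← Finset.prod_mul_distrib]
    refine prod_mem fun i _ => ?_
    have h1 : z i ^ (-ez j i).toNat * z i ^ ez j i = z i ^ (ez j i).toNat := by
      rw [← zpow_natCast (z i) (-ez j i).toNat, ← zpow_natCast (z i) (ez j i).toNat, ← zpow_add₀ (hz0 i)]
      congr 1
      omega
    rw [h1]
    exact pow_mem (hzA i) _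

end Pool.Agent.Results.MP_5b7a2c_ag.TorusActionsLog
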